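import Mathlib.Analysis.Normed.Lp.lpSpace
import Mathlib.Analysis.Normed.Group.Quotient
import Mathlib.Analysis.Normed.Ring.Units
import Mathlib.Analysis.Normed.Operator.ContinuousLinearMap
import Mathlib.Analysis.Normed.Algebra.UnitizationL1
import Mathlib.Topology.ContinuousMap.Bounded.Normed
import Mathlib.Analysis.Normed.Operator.NormedSpace
import Mathlib.RingTheory.Ideal.Quotient.Defs
import Mathlib.Analysis.Complex.Basic

/-!
# Stable rank one does not pass from the asymptotic sequence algebra to its factors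

Let `J` be the algebra of bounded operators on the space of bounded sequences; it contains `l`, `s`
with `l s = 1` and `s l ≠ 1`. The algebra `A n` is `ℂ ⊕ J` with coordinates `(a, u)` standing for
the pair `(a, a + u)` of `ℂ × J` and with norm `|a| + (n + 1) ‖u‖`. It is not of stable rank one,
as `(1, s)` is not a limit of invertible elements. In the asymptotic sequence algebra, however,
the product of two elements with first coordinate zero is zero, because the factor `n + 1` makes
the operator norms of the second coordinates tend to zero.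
-/

set_option autoImplicit false
set_option linter.unusedSectionVars false

namespace Pool.Agent.Results.MP_c26838_an.AsyStableRank

open Filter Topology
open scoped ENNReal

/-! ### Definitions -/

section Defs

variable (A : ℕ → Type) [∀ n, NormedRing (A n)] [∀ n, NormOneClass (A n)]

/-- The norms of the terms of the bounded sequence `f` tend to `0`. -/
def IsNull (f : lp A ∞) : Prop := Tendsto (fun n => ‖f n‖) atTop (𝓝 0)

/-- `c₀(𝒜ₙ)`: the ideal of the sequences in `ℓ^∞(𝒜ₙ)` whose norms tend to `0`; it consists of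
these sequences, see `mem_c0`. -/
noncomputable def c0 : Ideal (lp A ∞) := Ideal.span {f | IsNull A f}

theorem isNull_add {f g : lp A ∞} (hf : IsNull A f) (hg : IsNull A g) : IsNull A (f + g) := by
  have h := Tendsto.add hf hg
  rw [add_zero] at h
  refine squeeze_zero (fun n => norm_nonneg _) (fun n => ?_) h
  exact norm_add_le _ _

theorem isNull_zero : IsNull A (0 : lp A ∞) := by
  have : (fun n => ‖(0 : lp A ∞) n‖) = fun _ => (0 : ℝ) := by
    funext n
    exact norm_zero
  unfold IsNull
  rw [this]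
  exact tendsto_const_nhds

theorem isNull_smul (c : lp A ∞) {f : lp A ∞} (hf : IsNull A f) : IsNull A (c • f) := by
  have h : Tendsto (fun n => ‖c‖ * ‖f n‖) atTop (𝓝 0) := by
    simpa using (Tendsto.const_mul ‖c‖ hf)
  refine squeeze_zero (fun n => norm_nonneg _) (fun n => ?_) h
  change ‖c n * f n‖ ≤ _
  refine (norm_mul_le _ _).trans ?_
  exact mul_le_mul_of_nonneg_right
    (lp.norm_apply_le_norm (E := A) ENNReal.top_ne_zero c n) (norm_nonneg _)

theorem isNull_mul {f : lp A ∞} (c : lp A ∞) (hf : IsNull A f) : IsNull A (f * c) := by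
  have h : Tendsto (fun n => ‖f n‖ * ‖c‖) atTop (𝓝 0) := by
    simpa using (Tendsto.mul_const ‖c‖ hf)
  refine squeeze_zero (fun n => norm_nonneg _) (fun n => ?_) h
  change ‖f n * c n‖ ≤ _
  refine (norm_mul_le _ _).trans ?_
  exact mul_le_mul_of_nonneg_left
    (lp.norm_apply_le_norm (E := A) ENNReal.top_ne_zero c n) (norm_nonneg _)

theorem mem_c0 (f : lp A ∞) : f ∈ c0 A ↔ Tendsto (fun n => ‖f n‖) atTop (𝓝 0) := by
  constructor
  · intro hf
    have : ∀ g ∈ Ideal.span {f | IsNull A f}, IsNull A g := by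
      intro g hg
      refine Submodule.span_induction (p := fun g _ => IsNull A g) (fun x hx => hx)
        (isNull_zero A) (fun x y _ _ hx hy => isNull_add A hx hy)
        (fun a x _ hx => isNull_smul A a hx) hg
    exact this f hf
  · intro hf
    exact Ideal.subset_span hf

instance c0_twoSided : (c0 A).IsTwoSided where
  mul_mem_of_left := fun c hf => (mem_c0 A _).2 (isNull_mul A c ((mem_c0 A _).1 hf))

/-- The asymptotic sequence algebra `Asy(𝒜ₙ) = ℓ^∞(𝒜ₙ) / c₀(𝒜ₙ)`. -/
def Asy : Type := lp A ∞ ⧸ c0 A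

noncomputable instance instRingAsy : Ring (Asy A) := Ideal.Quotient.ring (c0 A)

/-- The quotient norm on `Asy(𝒜ₙ)`. -/
noncomputable instance instNormAsy : SeminormedAddCommGroup (Asy A) :=
  Submodule.Quotient.seminormedAddCommGroup (c0 A)

end Defs

/-- A unital Banach algebra has stable rank one if its invertible elements are dense. -/
def StableRankOne (B : Type) [Ring B] [TopologicalSpace B] : Prop :=
  Dense {x : B | IsUnit x}

/-! ### The one-sided inverse lemma -/

theorem not_stableRankOne_of {B : Type} [NormedRing B] [CompleteSpace B] {l s : B}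
    (h1 : l * s = 1) (h2 : s * l ≠ 1) : ¬ StableRankOne B := by
  intro hd
  have hcl : s ∈ closure {x : B | IsUnit x} := hd s
  have hopen : IsOpen {x : B | IsUnit (l * x)} :=
    (Units.isOpen (R := B)).preimage (continuous_const_mul l)
  have hs : s ∈ {x : B | IsUnit (l * x)} := by
    simp [h1]
  obtain ⟨u, hu1, hu2⟩ := mem_closure_iff.1 hcl _ hopen hs
  have hu1' : IsUnit (l * u) := hu1
  have hu2' : IsUnit u := hu2
  have hl : IsUnit l := by
    obtain ⟨v, hv⟩ := hu2'
    have : l = (l * u) * ((v⁻¹ : Bˣ) : B) := by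
      rw [mul_assoc, ← hv, Units.mul_inv, mul_one]
    rw [this]
    exact hu1'.mul (Units.isUnit _)
  obtain ⟨v, rfl⟩ := hl
  have : s = ((v⁻¹ : Bˣ) : B) := by
    calc s = ((v⁻¹ : Bˣ) : B) * ((v : B) * s) := by rw [← mul_assoc, Units.inv_mul, one_mul]
      _ = _ := by rw [h1, mul_one]
  apply h2
  rw [this, Units.inv_mul]

/-! ### The algebra `J` with a rescaled norm -/

section Scaled

variable (J : Type) [NormedRing J] [NormedAlgebra ℂ J]

/-- The ring `J` with the norm `(n + 1) ‖x‖`. -/
def SJ (_n : ℕ) (J : Type) : Type := J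

variable (n : ℕ)

/-- the ring structure of `J` -/
@[reducible] def ringSJ : Ring (SJ n J) := inferInstanceAs (Ring J)

/-- the multiplication by `n + 1`, as an additive equivalence -/
noncomputable def scaleEquiv :
    letI := ringSJ J n
    SJ n J ≃+ J :=
  letI := ringSJ J n
  { toFun := fun x => ((n : ℂ) + 1) • (show J from x)
    invFun := fun y => ((((n : ℂ) + 1)⁻¹ • y : J) : SJ n J)
    left_inv := fun x => by
      have : ((n : ℂ) + 1) ≠ 0 := Nat.cast_add_one_ne_zero n
      have h2 : ((n : ℂ) + 1)⁻¹ • (((n : ℂ) + 1) • (show J from x)) = x := by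
        rw [smul_smul, inv_mul_cancel₀ this, one_smul]
      exact h2
    right_inv := fun y => by
      have : ((n : ℂ) + 1) ≠ 0 := Nat.cast_add_one_ne_zero n
      have h2 : ((n : ℂ) + 1) • (((n : ℂ) + 1)⁻¹ • y) = y := by
        rw [smul_smul, mul_inv_cancel₀ this, one_smul]
      exact h2
    map_add' := fun x y => smul_add ((n : ℂ) + 1) (show J from x) (show J from y) }

/-- the norm `(n + 1) ‖x‖` on `J` -/
@[reducible] noncomputable def nacg : NormedAddCommGroup (SJ n J) :=
  letI := ringSJ J n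
  NormedAddCommGroup.induced (SJ n J) J (scaleEquiv J n) (AddEquiv.injective _)

theorem norm_nacg (x : SJ n J) :
    (nacg J n).toNorm.norm x = ((n : ℝ) + 1) * ‖(show J from x)‖ := by
  change ‖((n : ℂ) + 1) • (show J from x)‖ = _
  rw [norm_smul]
  congr 1
  have h : ((n : ℂ) + 1) = ((n + 1 : ℕ) : ℂ) := by push_cast; rfl
  rw [h, Complex.norm_natCast]
  push_cast
  rfl

noncomputable instance instNUNR : NonUnitalNormedRing (SJ n J) where
  __ := nacg J n
  __ := ringSJ J n
  norm_mul_le x y := by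
    change (nacg J n).toNorm.norm (x * y) ≤ (nacg J n).toNorm.norm x * (nacg J n).toNorm.norm y
    rw [norm_nacg, norm_nacg, norm_nacg]
    have h1 : ‖(show J from x) * (show J from y)‖ ≤ ‖(show J from x)‖ * ‖(show J from y)‖ :=
      norm_mul_le _ _
    have h2 : (0 : ℝ) ≤ n := Nat.cast_nonneg n
    have h3 : 0 ≤ ‖(show J from x)‖ * ‖(show J from y)‖ := by positivity
    have h4 : ((n : ℝ) + 1) * ‖(show J from x) * (show J from y)‖ ≤
        ((n : ℝ) + 1) * ‖(show J from x)‖ * (((n : ℝ) + 1) * ‖(show J from y)‖) := by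
      nlinarith [mul_nonneg h2 h3, mul_nonneg (mul_nonneg h2 h2) h3]
    exact h4

/-- The identity map to `J` -/
def toJ : SJ n J →ₙ+* J where
  toFun x := x
  map_mul' _ _ := rfl
  map_zero' := rfl
  map_add' _ _ := rfl

/-- The identity map from `J` -/
def ofJ : J →ₙ+* SJ n J where
  toFun x := x
  map_mul' _ _ := rfl
  map_zero' := rfl
  map_add' _ _ := rfl

@[simp] theorem toJ_ofJ (x : J) : toJ J n (ofJ J n x) = x := rfl
@[simp] theorem ofJ_toJ (x : SJ n J) : ofJ J n (toJ J n x) = x := rfl

theorem norm_SJ (x : SJ n J) : ‖x‖ = ((n : ℝ) + 1) * ‖toJ J n x‖ := norm_nacg J n x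

noncomputable instance instNS : NormedSpace ℂ (SJ n J) where
  smul := fun c x => ofJ J n (c • toJ J n x)
  one_smul x := by
    change ofJ J n ((1 : ℂ) • toJ J n x) = x
    simp
  mul_smul a b x := by
    change ofJ J n ((a * b) • toJ J n x) = ofJ J n (a • toJ J n (ofJ J n (b • toJ J n x)))
    simp [mul_smul]
  smul_zero a := by
    change ofJ J n (a • toJ J n 0) = 0
    simp
  smul_add a x y := by
    change ofJ J n (a • toJ J n (x + y)) = ofJ J n (a • toJ J n x) + ofJ J n (a • toJ J n y)
    simp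
  add_smul a b x := by
    change ofJ J n ((a + b) • toJ J n x) = ofJ J n (a • toJ J n x) + ofJ J n (b • toJ J n x)
    simp [add_smul]
  zero_smul x := by
    change ofJ J n ((0 : ℂ) • toJ J n x) = 0
    simp
  norm_smul_le c x := by
    change ‖ofJ J n (c • toJ J n x)‖ ≤ ‖c‖ * ‖x‖
    rw [norm_SJ, norm_SJ, toJ_ofJ, norm_smul]
    apply le_of_eq
    ring

@[simp] theorem toJ_smul (c : ℂ) (x : SJ n J) : toJ J n (c • x) = c • toJ J n x := rfl

instance instIST : IsScalarTower ℂ (SJ n J) (SJ n J) where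
  smul_assoc c x y := smul_mul_assoc c (toJ J n x) (toJ J n y)

instance instSCC : SMulCommClass ℂ (SJ n J) (SJ n J) where
  smul_comm c x y := (mul_smul_comm c (toJ J n x) (toJ J n y)).symm

instance instCS [CompleteSpace J] : CompleteSpace (SJ n J) := by
  have hiso : Isometry (scaleEquiv J n) := by
    apply AddMonoidHomClass.isometry_of_norm
    intro x
    rfl
  exact (completeSpace_congr (e := (scaleEquiv J n).toEquiv) hiso.isUniformEmbedding).2
    inferInstance

/-- The unital algebra `ℂ ⊕ J` with the norm `|a| + (n + 1) ‖u‖`. -/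
abbrev AJ : Type := WithLp 1 (Unitization ℂ (SJ n J))

instance instNOC : NormOneClass (AJ J n) where
  norm_one := by
    rw [WithLp.unitization_norm_def]
    change ‖(1 : Unitization ℂ (SJ n J)).fst‖ + ‖(1 : Unitization ℂ (SJ n J)).snd‖ = 1
    simp


/-- The element with coordinates `a`, `u`. -/
noncomputable def mk (a : ℂ) (u : J) : AJ J n := WithLp.toLp 1 ⟨(a, ofJ J n u)⟩

theorem mk_mul (a b : ℂ) (u v : J) :
    mk J n a u * mk J n b v = mk J n (a * b) (a • v + b • u + u * v) := by
  rfl

theorem mk_add (a b : ℂ) (u v : J) :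
    mk J n a u + mk J n b v = mk J n (a + b) (u + v) := rfl

theorem mk_sub (a b : ℂ) (u v : J) :
    mk J n a u - mk J n b v = mk J n (a - b) (u - v) := rfl

theorem mk_one : mk J n 1 0 = 1 := rfl

theorem norm_mk (a : ℂ) (u : J) : ‖mk J n a u‖ = ‖a‖ + ((n : ℝ) + 1) * ‖u‖ := by
  rw [WithLp.unitization_norm_def]
  change ‖a‖ + ‖ofJ J n u‖ = _
  rw [norm_SJ, toJ_ofJ]

theorem exists_mk (x : AJ J n) : ∃ a u, x = mk J n a u :=
  ⟨(WithLp.ofLp x).fst, toJ J n (WithLp.ofLp x).snd, rfl⟩

end Scaled

/-! ### The asymptotic sequence algebra has stable rank one -/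

section AsyPart

variable (J : Type) [NormedRing J] [NormedAlgebra ℂ J]

theorem stableRankOne_Asy : StableRankOne (Asy (fun n => AJ J n)) := by
  have hD : Dense {f : lp (fun n => AJ J n) ∞ |
      IsUnit (Ideal.Quotient.mk (c0 (fun n => AJ J n)) f)} := by
    rw [Metric.dense_iff]
    intro f r hr
    have hex : ∀ n, ∃ (a : ℂ) (u : J), f n = mk J n a u :=
      fun n => exists_mk J n (f n)
    choose a u hau using hex
    have hf : ∀ n, ‖a n‖ + ((n : ℝ) + 1) * ‖u n‖ ≤ ‖f‖ := by
      intro n
      rw [← norm_mk, ← hau]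
      exact lp.norm_apply_le_norm (E := fun n => AJ J n) ENNReal.top_ne_zero f n
    have hnn : ∀ n : ℕ, (0 : ℝ) < (n : ℝ) + 1 := fun n => Nat.cast_add_one_pos n
    have hfa : ∀ n, ‖a n‖ ≤ ‖f‖ := fun n =>
      le_trans (le_add_of_nonneg_right (mul_nonneg (hnn n).le (norm_nonneg _))) (hf n)
    have hfu : ∀ n : ℕ, ((n : ℝ) + 1) * ‖u n‖ ≤ ‖f‖ := fun n =>
      le_trans (le_add_of_nonneg_left (norm_nonneg _)) (hf n)
    set δ : ℝ := r / 4 with hδ
    have hδ0 : 0 < δ := by positivity
    let μ : ℕ → ℂ := fun n => if ‖a n‖ < δ then (δ : ℂ) else a n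
    have hμ1 : ∀ n, δ ≤ ‖μ n‖ := by
      intro n
      by_cases h : ‖a n‖ < δ
      · simp only [μ, h, if_true]
        rw [Complex.norm_real, Real.norm_of_nonneg hδ0.le]
      · simp only [μ, h, if_false]
        exact not_lt.1 h
    have hμ2 : ∀ n, ‖μ n - a n‖ ≤ 2 * δ := by
      intro n
      by_cases h : ‖a n‖ < δ
      · simp only [μ, h, if_true]
        refine (norm_sub_le _ _).trans ?_
        rw [Complex.norm_real, Real.norm_of_nonneg hδ0.le]
        linarith
      · simp only [μ, h, if_false]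
        simp
        positivity
    have hμ0 : ∀ n, μ n ≠ 0 := by
      intro n h
      have := hμ1 n
      rw [h, norm_zero] at this
      linarith
    have hμ3 : ∀ n, ‖μ n‖ ≤ ‖f‖ + 2 * δ := by
      intro n
      calc ‖μ n‖ = ‖a n + (μ n - a n)‖ := by congr 1; ring
        _ ≤ ‖a n‖ + ‖μ n - a n‖ := norm_add_le _ _
        _ ≤ ‖f‖ + 2 * δ := add_le_add (hfa n) (hμ2 n)
    have hμ4 : ∀ n, ‖(μ n)⁻¹‖ ≤ δ⁻¹ := by
      intro n
      rw [norm_inv]
      exact inv_anti₀ hδ0 (hμ1 n)
    have hgmem : Memℓp (fun n => mk J n (μ n) (u n)) ∞ := by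
      apply memℓp_infty
      refine ⟨‖f‖ + 2 * δ + ‖f‖, ?_⟩
      rintro _ ⟨n, rfl⟩
      change ‖mk J n (μ n) (u n)‖ ≤ _
      rw [norm_mk]
      exact add_le_add (hμ3 n) (hfu n)
    have hhmem : Memℓp (fun n => mk J n (μ n)⁻¹ (-((μ n)⁻¹ ^ 2 • u n))) ∞ := by
      apply memℓp_infty
      refine ⟨δ⁻¹ + δ⁻¹ ^ 2 * ‖f‖, ?_⟩
      rintro _ ⟨n, rfl⟩
      change ‖mk J n (μ n)⁻¹ (-((μ n)⁻¹ ^ 2 • u n))‖ ≤ _
      rw [norm_mk]
      refine add_le_add (hμ4 n) ?_
      rw [norm_neg, norm_smul, norm_pow]
      calc ((n : ℝ) + 1) * (‖(μ n)⁻¹‖ ^ 2 * ‖u n‖)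
          = ‖(μ n)⁻¹‖ ^ 2 * (((n : ℝ) + 1) * ‖u n‖) := by ring
        _ ≤ δ⁻¹ ^ 2 * ‖f‖ := by
            refine mul_le_mul ?_ (hfu n) (mul_nonneg (hnn n).le (norm_nonneg _)) (by positivity)
            exact pow_le_pow_left₀ (norm_nonneg _) (hμ4 n) 2
    let g : lp (fun n => AJ J n) ∞ := ⟨fun n => mk J n (μ n) (u n), hgmem⟩
    let h : lp (fun n => AJ J n) ∞ := ⟨fun n => mk J n (μ n)⁻¹ (-((μ n)⁻¹ ^ 2 • u n)), hhmem⟩
    have hg : ∀ n, g n = mk J n (μ n) (u n) := fun n => rfl
    have hh : ∀ n, h n = mk J n (μ n)⁻¹ (-((μ n)⁻¹ ^ 2 • u n)) := fun n => rfl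
    have htend : Tendsto (fun n : ℕ => δ⁻¹ ^ 2 * (‖f‖ ^ 2 / ((n : ℝ) + 1))) atTop (𝓝 0) := by
      have h1 : Tendsto (fun n : ℕ => ‖f‖ ^ 2 * (1 / ((n : ℝ) + 1))) atTop (𝓝 0) := by
        simpa using tendsto_one_div_add_atTop_nhds_zero_nat.const_mul (‖f‖ ^ 2)
      have h2 := h1.const_mul (δ⁻¹ ^ 2)
      rw [mul_zero] at h2
      refine h2.congr fun n => ?_
      ring
    have hbound : ∀ n : ℕ, ((n : ℝ) + 1) * ‖-((μ n)⁻¹ ^ 2 • (u n * u n))‖ ≤
        δ⁻¹ ^ 2 * (‖f‖ ^ 2 / ((n : ℝ) + 1)) := by
      intro n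
      rw [norm_neg, norm_smul, norm_pow]
      have h1 : ((n : ℝ) + 1) * ‖u n * u n‖ ≤ ‖f‖ ^ 2 / ((n : ℝ) + 1) := by
        rw [le_div_iff₀ (hnn n)]
        have h2 : ‖u n * u n‖ ≤ ‖u n‖ * ‖u n‖ := norm_mul_le _ _
        calc ((n : ℝ) + 1) * ‖u n * u n‖ * ((n : ℝ) + 1)
            ≤ ((n : ℝ) + 1) * (‖u n‖ * ‖u n‖) * ((n : ℝ) + 1) := by
              have := (hnn n).le
              gcongr
          _ = (((n : ℝ) + 1) * ‖u n‖) ^ 2 := by ring
          _ ≤ ‖f‖ ^ 2 :=
              pow_le_pow_left₀ (mul_nonneg (hnn n).le (norm_nonneg _)) (hfu n) 2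
      calc ((n : ℝ) + 1) * (‖(μ n)⁻¹‖ ^ 2 * ‖u n * u n‖)
          = ‖(μ n)⁻¹‖ ^ 2 * (((n : ℝ) + 1) * ‖u n * u n‖) := by ring
        _ ≤ δ⁻¹ ^ 2 * (‖f‖ ^ 2 / ((n : ℝ) + 1)) := by
            refine mul_le_mul ?_ h1 (mul_nonneg (hnn n).le (norm_nonneg _)) (by positivity)
            exact pow_le_pow_left₀ (norm_nonneg _) (hμ4 n) 2
    have hgh : g * h - 1 ∈ c0 (fun n => AJ J n) := by
      rw [mem_c0]
      refine squeeze_zero (fun n => norm_nonneg _) (fun n => ?_) htend
      have : (g * h - 1) n = mk J n 0 (-((μ n)⁻¹ ^ 2 • (u n * u n))) := by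
        change g n * h n - 1 = _
        rw [hg, hh, ← mk_one, mk_mul, mk_sub, mul_inv_cancel₀ (hμ0 n), sub_self]
        congr 1
        have e1 : μ n • -((μ n)⁻¹ ^ 2 • u n) = -((μ n)⁻¹ • u n) := by
          rw [smul_neg, smul_smul]
          congr 2
          have := hμ0 n
          field_simp
        rw [e1, mul_neg, mul_smul_comm, neg_add_cancel, zero_add, sub_zero]
      rw [this, norm_mk, norm_zero, zero_add]
      exact hbound n
    have hhg : h * g - 1 ∈ c0 (fun n => AJ J n) := by
      rw [mem_c0]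
      refine squeeze_zero (fun n => norm_nonneg _) (fun n => ?_) htend
      have : (h * g - 1) n = mk J n 0 (-((μ n)⁻¹ ^ 2 • (u n * u n))) := by
        change h n * g n - 1 = _
        rw [hg, hh, ← mk_one, mk_mul, mk_sub, inv_mul_cancel₀ (hμ0 n), sub_self]
        congr 1
        have e1 : μ n • -((μ n)⁻¹ ^ 2 • u n) = -((μ n)⁻¹ • u n) := by
          rw [smul_neg, smul_smul]
          congr 2
          have := hμ0 n
          field_simp
        rw [e1, neg_mul, smul_mul_assoc, add_neg_cancel, zero_add, sub_zero]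
      rw [this, norm_mk, norm_zero, zero_add]
      exact hbound n
    refine ⟨g, ?_, ?_⟩
    · rw [Metric.mem_ball, dist_eq_norm]
      have : ‖g - f‖ ≤ 2 * δ := by
        refine lp.norm_le_of_forall_le (E := fun n => AJ J n) (by positivity) fun n => ?_
        change ‖g n - f n‖ ≤ _
        rw [hg, hau, mk_sub, sub_self, norm_mk, norm_zero, mul_zero, add_zero]
        exact hμ2 n
      refine lt_of_le_of_lt this ?_
      rw [hδ]
      linarith
    · have e1 : Ideal.Quotient.mk (c0 (fun n => AJ J n)) g *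
          Ideal.Quotient.mk (c0 (fun n => AJ J n)) h = 1 := by
        rw [← map_mul, ← map_one (Ideal.Quotient.mk (c0 (fun n => AJ J n)))]
        exact Ideal.Quotient.eq.2 hgh
      have e2 : Ideal.Quotient.mk (c0 (fun n => AJ J n)) h *
          Ideal.Quotient.mk (c0 (fun n => AJ J n)) g = 1 := by
        rw [← map_mul, ← map_one (Ideal.Quotient.mk (c0 (fun n => AJ J n)))]
        exact Ideal.Quotient.eq.2 hhg
      exact ⟨⟨_, _, e1, e2⟩, rfl⟩
  have hcont : Continuous (Ideal.Quotient.mk (c0 (fun n => AJ J n))) := continuous_quot_mk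
  have hsurj : Function.Surjective (Ideal.Quotient.mk (c0 (fun n => AJ J n))) :=
    Ideal.Quotient.mk_surjective
  have h2 := hsurj.denseRange.dense_image hcont hD
  refine h2.mono ?_
  rintro _ ⟨f, hf, rfl⟩
  exact hf

end AsyPart

/-! ### A concrete `J` -/

/-- The Banach space of bounded sequences. -/
abbrev X : Type := BoundedContinuousFunction ℕ ℂ

/-- the right shift -/
noncomputable def shiftR : X →L[ℂ] X :=
  LinearMap.mkContinuous
    { toFun := fun f => BoundedContinuousFunction.ofNormedAddCommGroup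
        (fun n => if n = 0 then 0 else f (n - 1)) continuous_of_discreteTopology ‖f‖ (by
          intro n
          by_cases h : n = 0
          · simp [h]
          · simp only [h, if_false]
            exact f.norm_coe_le_norm _)
      map_add' := by
        intro f g
        ext n
        by_cases h : n = 0 <;> simp [h]
      map_smul' := by
        intro c f
        ext n
        by_cases h : n = 0 <;> simp [h] }
    1 (by
      intro f
      rw [one_mul]
      refine (BoundedContinuousFunction.norm_le (norm_nonneg _)).2 fun n => ?_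
      by_cases h : n = 0
      · simp [h]
      · simp only [LinearMap.coe_mk, AddHom.coe_mk,
          BoundedContinuousFunction.coe_ofNormedAddCommGroup, h, if_false]
        exact f.norm_coe_le_norm _)

/-- the left shift -/
noncomputable def shiftL : X →L[ℂ] X :=
  LinearMap.mkContinuous
    { toFun := fun f => BoundedContinuousFunction.ofNormedAddCommGroup
        (fun n => f (n + 1)) continuous_of_discreteTopology ‖f‖ (fun n => f.norm_coe_le_norm _)
      map_add' := by
        intro f g
        ext n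
        simp
      map_smul' := by
        intro c f
        ext n
        simp }
    1 (by
      intro f
      rw [one_mul]
      exact (BoundedContinuousFunction.norm_le (norm_nonneg _)).2 fun n =>
        f.norm_coe_le_norm (n + 1))

theorem shiftL_mul_shiftR : shiftL * shiftR = 1 := by
  ext f n
  simp [shiftL, shiftR]

theorem shiftR_mul_shiftL : shiftR * shiftL ≠ 1 := by
  intro h
  have h1 : (shiftR * shiftL) (BoundedContinuousFunction.const ℕ (1 : ℂ)) 0 =
      (1 : X →L[ℂ] X) (BoundedContinuousFunction.const ℕ (1 : ℂ)) 0 := by rw [h]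
  simp [shiftL, shiftR] at h1

theorem not_stableRankOne_AJ (n : ℕ) : ¬ StableRankOne (AJ (X →L[ℂ] X) n) := by
  refine not_stableRankOne_of (l := mk _ n 1 (shiftL - 1)) (s := mk _ n 1 (shiftR - 1)) ?_ ?_
  · rw [mk_mul, ← mk_one]
    congr 1
    · ring
    · rw [one_smul, one_smul, sub_mul, mul_sub, shiftL_mul_shiftR, mul_one, one_mul]
      abel
  · intro h
    rw [mk_mul, ← mk_one] at h
    have h2 := congrArg (fun x => toJ _ n (WithLp.ofLp x).snd) h
    have h3 : (1 : ℂ) • (shiftL - 1) + (1 : ℂ) • (shiftR - 1) +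
        (shiftR - 1) * (shiftL - 1) = (0 : X →L[ℂ] X) := h2
    apply shiftR_mul_shiftL
    rw [one_smul, one_smul, sub_mul, mul_sub] at h3
    simp only [one_mul, mul_one] at h3
    have h4 : shiftR * shiftL - 1 = (0 : X →L[ℂ] X) := by
      rw [← h3]
      abel
    exact sub_eq_zero.1 h4

/-- There are unital Banach algebras `A 0, A 1, …` over `ℂ`, none of stable rank one, whose
asymptotic sequence algebra has stable rank one. -/
theorem result :
    ∃ (A : ℕ → Type) (_ : ∀ n, NormedRing (A n)) (_ : ∀ n, NormedAlgebra ℂ (A n))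
      (_ : ∀ n, CompleteSpace (A n)) (_ : ∀ n, NormOneClass (A n)),
      StableRankOne (Asy A) ∧ ∀ n, ¬ StableRankOne (A n) :=
  ⟨fun n => AJ (X →L[ℂ] X) n, fun _ => inferInstance, fun _ => inferInstance,
    fun _ => inferInstance, fun _ => inferInstance,
    stableRankOne_Asy (X →L[ℂ] X), not_stableRankOne_AJ⟩

end Pool.Agent.Results.MP_c26838_an.AsyStableRank
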